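import Pool.Agent.J6H54.CG.Stm

/-!
# Upper bound for the sum over the exponents
-/

set_option autoImplicit false

namespace Pool.Agent.J6H50.CG32

open Finset Filter Topology Pool.Agent.J6H54.CG

theorem sum_Icc_shift (g : ℕ → ℝ) (M : ℕ) : ∑ m ∈ Icc 1 M, g m = ∑ n ∈ range M, g (n + 1) := by
  induction M with
  | zero => simp
  | succ M ih => rw [Finset.sum_Icc_succ_top (by omega), ih, Finset.sum_range_succ]

theorem m32 (h18 : S_Fup) (h19 : S_E) : S_sumF := by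
  intro k T R K C ρ hT hB hK hR
  obtain ⟨C0, θ, hθ0, hθ1, hE⟩ := h19 k T R K C ρ hT hB hK hR
  have hρ := hR.pos
  have hsum : Summable (fun m : ℕ => (m : ℝ) * θ ^ m) := by
    have h := summable_pow_mul_geometric_of_norm_lt_one 1
      (r := θ) (by rw [Real.norm_eq_abs, abs_of_pos hθ0]; exact hθ1)
    simpa using h
  have hS0 : 0 ≤ ∑' m : ℕ, (m : ℝ) * θ ^ m :=
    tsum_nonneg fun m => mul_nonneg (Nat.cast_nonneg m) (pow_nonneg hθ0.le m)
  have hc1 : 0 ≤ (2 / ρ) ^ K := pow_nonneg (div_nonneg (by norm_num) hρ.le) K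
  have hc2 : 0 ≤ |C0| * ∑' m : ℕ, (m : ℝ) * θ ^ m := mul_nonneg (abs_nonneg _) hS0
  refine ⟨(2 / ρ) ^ K + |C0| * ∑' m : ℕ, (m : ℝ) * θ ^ m, add_nonneg hc1 hc2, ?_⟩
  intro q hq0 hq1 hqR M
  have hqR1 : q ^ R ≤ 1 := pow_le_one₀ hq0.le hq1.le
  have hqR0 : 0 < q ^ R := pow_pos hq0 R
  set z : ℝ := ρ * q ^ R with hz
  have hz0 : 0 < z := mul_pos hρ hqR0
  have hzρ : z ≤ ρ := by
    rw [hz]; exact mul_le_of_le_one_right hρ.le hqR1
  have hz1 : z ≤ 1 := hzρ.trans hR.lt_one.le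
  have hzl : ρ / 2 ≤ z := by
    rw [hz]
    have := mul_le_mul_of_nonneg_left hqR hρ.le
    linarith
  have hlog : 0 ≤ -Real.log (1 - q) := by
    have := Real.log_nonpos (x := 1 - q) (by linarith) (by linarith)
    linarith
  -- one exponent
  have hone : ∀ m : ℕ, 1 ≤ m → F k T m z ≤ (2 / ρ) ^ K * (q ^ m / m) + |C0| * (m * θ ^ m) := by
    intro m hm
    have hm0 : (0 : ℝ) < m := by exact_mod_cast hm
    have h1 := h18 k T K hT hK m z hm hz0 hz1
    have h2 : A k T m z ≤ q ^ m := hR.le q hq0 hq1.le m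
    have h3 := hE m z hm hzl hzρ
    have h3' : E k T m z ≤ |C0| * (m * θ ^ m) :=
      h3.trans (mul_le_mul_of_nonneg_right (le_abs_self C0)
        (mul_nonneg hm0.le (pow_nonneg hθ0.le m)))
    have hzK : 0 < z ^ K := pow_pos hz0 K
    have h4 : 1 ≤ (2 / ρ) ^ K * z ^ K := by
      rw [← mul_pow]
      apply one_le_pow₀
      rw [div_mul_eq_mul_div, le_div_iff₀ hρ]
      linarith
    have h5 : z ^ K * (m * F k T m z) ≤ z ^ K * ((2 / ρ) ^ K * q ^ m + m * E k T m z) := by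
      have h6 : q ^ m ≤ z ^ K * ((2 / ρ) ^ K * q ^ m) := by
        have h7 := mul_le_mul_of_nonneg_right h4 (pow_nonneg hq0.le m)
        calc q ^ m = 1 * q ^ m := (one_mul _).symm
          _ ≤ (2 / ρ) ^ K * z ^ K * q ^ m := h7
          _ = z ^ K * ((2 / ρ) ^ K * q ^ m) := by ring
      rw [mul_add]
      linarith
    have h6 := le_of_mul_le_mul_left h5 hzK
    have h7 : (m : ℝ) * F k T m z ≤
        m * ((2 / ρ) ^ K * (q ^ m / m) + |C0| * (m * θ ^ m)) := by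
      have h8 : (m : ℝ) * ((2 / ρ) ^ K * (q ^ m / m)) = (2 / ρ) ^ K * q ^ m := by
        field_simp
      rw [mul_add, h8]
      have h9 := mul_le_mul_of_nonneg_left h3' hm0.le
      linarith
    exact le_of_mul_le_mul_left h7 hm0
  -- the sum
  have hs1 : ∑ m ∈ Icc 1 M, q ^ m / m ≤ -Real.log (1 - q) := by
    rw [sum_Icc_shift (fun m => q ^ m / m) M]
    have h := Real.hasSum_pow_div_log_of_abs_lt_one (x := q) (by rw [abs_of_pos hq0]; exact hq1)
    have h2 := sum_le_hasSum (range M) (fun i _ => by positivity) h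
    refine le_trans (le_of_eq ?_) h2
    refine Finset.sum_congr rfl fun n _ => ?_
    push_cast
    rfl
  have hs2 : ∑ m ∈ Icc 1 M, ((m : ℝ) * θ ^ m) ≤ ∑' m : ℕ, (m : ℝ) * θ ^ m :=
    hsum.sum_le_tsum _ (fun m _ => mul_nonneg (Nat.cast_nonneg m) (pow_nonneg hθ0.le m))
  calc ∑ m ∈ Icc 1 M, F k T m z
      ≤ ∑ m ∈ Icc 1 M, ((2 / ρ) ^ K * (q ^ m / m) + |C0| * (m * θ ^ m)) :=
        Finset.sum_le_sum fun m hm => hone m (Finset.mem_Icc.1 hm).1
    _ = (2 / ρ) ^ K * ∑ m ∈ Icc 1 M, q ^ m / m + |C0| * ∑ m ∈ Icc 1 M, ((m : ℝ) * θ ^ m) := by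
        rw [Finset.sum_add_distrib, ← Finset.mul_sum, ← Finset.mul_sum]
    _ ≤ (2 / ρ) ^ K * (-Real.log (1 - q)) + |C0| * ∑' m : ℕ, (m : ℝ) * θ ^ m :=
        add_le_add (mul_le_mul_of_nonneg_left hs1 hc1)
          (mul_le_mul_of_nonneg_left hs2 (abs_nonneg _))
    _ ≤ _ := by nlinarith [mul_nonneg hc1 hlog, mul_nonneg hc2 hlog]

end Pool.Agent.J6H50.CG32
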